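import Pool.Agent.W659.PV.Stm

/-! Project PV: square roots and discriminants. -/

set_option autoImplicit false

namespace Pool.Agent.W240.PV.DISC

open NumberField IsDedekindDomain UniqueFactorizationMonoid
open Pool.Agent.W659.PV

section

variable {K : Type} [Field K] [NumberField K]

theorem odd_fin {x : K} (hx : x ≠ 0) :
    (OddP (∅ : Set (HeightOneSpectrum (𝓞 K))) x).Finite := by
  refine ((HeightOneSpectrum.Support.finite (𝓞 K) x).union
    (HeightOneSpectrum.Support.finite (𝓞 K) x⁻¹)).subset ?_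
  intro v hv
  have h1 : ¬ IsSquare (v.valuation K x) := hv.2
  by_contra hc
  rw [Set.mem_union, not_or] at hc
  have h2 : ¬ 1 < v.valuation K x := hc.1
  have h3 : ¬ 1 < v.valuation K x⁻¹ := hc.2
  apply h1
  have h4 : v.valuation K x ≠ 0 := (Valuation.ne_zero_iff _).2 hx
  rw [map_inv₀] at h3
  have h5 : v.valuation K x = 1 := by
    refine le_antisymm (not_lt.1 h2) ?_
    by_contra h6
    rw [not_le] at h6
    exact h3 ((one_lt_inv₀ (zero_lt_iff.2 h4)).2 h6)
  rw [h5]
  exact ⟨1, by simp⟩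

variable {L : Type} [Field L] [NumberField L] [Algebra K L]

/-- the ramification index over a prime with odd valuation is even -/
theorem even_ram (v : HeightOneSpectrum (𝓞 K)) (w : HeightOneSpectrum (𝓞 L))
    [w.asIdeal.LiesOver v.asIdeal] {x : K} (hx : x ≠ 0) (y : L) (hy : y ^ 2 = algebraMap K L x)
    (hv : ¬ IsSquare (v.valuation K x)) : 2 ≤ v.asIdeal.ramificationIdx' w.asIdeal := by
  have h1 := HeightOneSpectrum.valuation_liesOver L v w x
  rw [← hy, map_pow] at h1
  set e := v.asIdeal.ramificationIdx' w.asIdeal with he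
  have hwp : w.asIdeal.IsPrime := w.isPrime
  have he0 : e ≠ 0 := Ideal.IsDedekindDomain.ramificationIdx'_ne_zero_of_liesOver w.asIdeal v.ne_bot
  have h4 : v.valuation K x ≠ 0 := (Valuation.ne_zero_iff _).2 hx
  by_contra hc
  have he1 : e = 1 := by omega
  rw [he1, pow_one] at h1
  apply hv
  rw [h1]
  exact ⟨w.valuation L y, by rw [sq]⟩

theorem main_dvd (F : Finset (HeightOneSpectrum (𝓞 K))) {x : K} (hx : x ≠ 0) (y : L)
    (hy : y ^ 2 = algebraMap K L x) (hF : ∀ v ∈ F, ¬ IsSquare (v.valuation K x)) :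
    (∏ v ∈ F, v.asIdeal).map (algebraMap (𝓞 K) (𝓞 L)) ∣ differentIdeal (𝓞 K) (𝓞 L) ^ 2 := by
  classical
  have hJ : (∏ v ∈ F, v.asIdeal) ≠ ⊥ := by
    rw [← Ideal.zero_eq_bot, Finset.prod_ne_zero_iff]
    exact fun v _ => v.ne_bot
  have hJ' : (∏ v ∈ F, v.asIdeal).map (algebraMap (𝓞 K) (𝓞 L)) ≠ 0 := by
    rw [Ne, Ideal.zero_eq_bot]
    exact Ideal.map_ne_bot_of_ne_bot hJ
  rw [dvd_iff_emultiplicity_le hJ']
  intro Q hQ
  have hQp : Q.IsPrime := Ideal.isPrime_of_prime hQ
  have hQb : Q ≠ ⊥ := hQ.ne_zero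
  set w : HeightOneSpectrum (𝓞 L) := ⟨Q, hQp, hQb⟩ with hw
  set v : HeightOneSpectrum (𝓞 K) := ⟨Q.under (𝓞 K), inferInstance, Ideal.under_ne_bot (𝓞 K) hQb⟩
    with hv
  haveI hlo : w.asIdeal.LiesOver v.asIdeal := ⟨rfl⟩
  have h1 := Ideal.IsDedekindDomain.emultiplicity_map_eq_ramificationIdx'_mul (v := v.asIdeal)
    (w := w.asIdeal) hJ v.irreducible w.irreducible w.ne_bot
  have h2 : emultiplicity v.asIdeal (∏ v ∈ F, v.asIdeal) = if v ∈ F then 1 else 0 := by
    rw [Finset.emultiplicity_prod v.prime]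
    have h3 : ∀ v' ∈ F, emultiplicity v.asIdeal v'.asIdeal = if v' = v then 1 else 0 := by
      intro v' _
      split_ifs with h
      · rw [h]
        exact (FiniteMultiplicity.of_prime_left v.prime v.prime.ne_zero).emultiplicity_self
      · exact emultiplicity_eq_zero_of_irreducible_ne v.irreducible v'.irreducible
          fun h' => h (HeightOneSpectrum.ext h'.symm)
    rw [Finset.sum_congr rfl h3, Finset.sum_ite_eq' F v]
  change emultiplicity w.asIdeal _ ≤ _
  rw [h1, h2]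
  by_cases hvF : v ∈ F
  · rw [if_pos hvF, mul_one]
    have he2 := even_ram v w hx y hy (hF v hvF)
    set e := v.asIdeal.ramificationIdx' w.asIdeal with he
    have h5 : w.asIdeal ^ e ∣ v.asIdeal.map (algebraMap (𝓞 K) (𝓞 L)) := by
      refine pow_dvd_of_le_emultiplicity ?_
      have h6 := Ideal.IsDedekindDomain.emultiplicity_map_eq_ramificationIdx'_mul
        (v := v.asIdeal) (w := w.asIdeal) (I := v.asIdeal) v.ne_bot v.irreducible w.irreducible
        w.ne_bot
      rw [h6, (FiniteMultiplicity.of_prime_left v.prime v.prime.ne_zero).emultiplicity_self,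
        mul_one]
    have hvm : v.asIdeal.IsMaximal := v.isMaximal
    have h7 := pow_sub_one_dvd_differentIdeal (𝓞 K) (p := v.asIdeal) w.asIdeal e v.ne_bot h5
    have h8 := le_emultiplicity_of_pow_dvd h7
    change _ ≤ emultiplicity w.asIdeal _
    rw [emultiplicity_pow w.prime]
    calc (e : ℕ∞) ≤ ((2 * (e - 1) : ℕ) : ℕ∞) := by
          exact_mod_cast (by omega : e ≤ 2 * (e - 1))
      _ = 2 * ((e - 1 : ℕ) : ℕ∞) := by push_cast; rfl
      _ ≤ ((2 : ℕ) : ℕ∞) * emultiplicity w.asIdeal (differentIdeal (𝓞 K) (𝓞 L)) := by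
          exact mul_le_mul_right h8 _
  · rw [if_neg hvF, mul_zero]
    exact bot_le

end

theorem main : S_DISC := by
  intro K _ _ L _ _ _ x y hx hy
  have hfin := odd_fin hx
  have h1 := main_dvd hfin.toFinset hx y hy fun v hv => by
    rw [Set.Finite.mem_toFinset] at hv
    exact hv.2
  have h2 := map_dvd Ideal.absNorm h1
  rw [Ideal.absNorm_algebraMap, map_prod, map_pow] at h2
  have hfr : Module.finrank (𝓞 K) (𝓞 L) = Module.finrank K L :=
    (IsFractionRing.finrank_eq (𝓞 K) K (𝓞 L) L).symm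
  have h3 : ∏ v ∈ hfin.toFinset, Ideal.absNorm v.asIdeal =
      oddNorm (∅ : Set (HeightOneSpectrum (𝓞 K))) x := by
    unfold oddNorm
    rw [finprod_mem_eq_finite_toFinset_prod _ hfin]
  rw [h3, hfr] at h2
  have h0 : Ideal.absNorm (differentIdeal (𝓞 K) (𝓞 L)) ≠ 0 := by
    rw [Ne, Ideal.absNorm_eq_zero_iff]
    exact differentIdeal_ne_bot
  have h4 := Nat.le_of_dvd (by positivity) h2
  have h5 := NumberField.natAbs_discr_eq_absNorm_differentIdeal_mul_natAbs_discr_pow K (𝓞 K) L (𝓞 L)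
  rw [h5, mul_pow, ← pow_mul, mul_comm (Module.finrank K L) 2]
  exact Nat.mul_le_mul_right _ h4

end Pool.Agent.W240.PV.DISC
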